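import Pool.Agent.Helper92.BW.GoalsB

/-!
# Polytopes of bounded elimination width, packet CIX: the cells
-/

namespace Pool.Agent.Helper9.BW

open Pool.Agent.Helper92
open Pool.Agent.Helper92.BW
open Pool.Agent.Helper92.FR hiding DepStmt
open Pool.Agent.Helper81.CC Pool.Agent.Bin

theorem cix_dot (x : List Qn) : ∀ (n : ℕ) (y : List Qn), x.length = n → y.length = n →
    Qn.val (dot x y) = ip (lv n x) (lv n y) := by
  unfold ip
  induction x with
  | nil =>
    intro n y hx hy
    simp only [List.length_nil] at hx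
    subst hx
    simp [dot]
  | cons a x ih =>
    intro n y hx hy
    cases y with
    | nil =>
      simp only [List.length_nil] at hy
      subst hy
      simp at hx
    | cons b y =>
      cases n with
      | zero => simp at hx
      | succ m =>
        have hx' : x.length = m := by simpa using hx
        have hy' : y.length = m := by simpa using hy
        have h := ih m y hx' hy'
        unfold dot at h ⊢
        rw [Qn.val_sum] at h ⊢
        rw [Fin.sum_univ_succ]
        simp only [List.zipWith_cons_cons, List.map_cons, List.sum_cons, Qn.val_mul]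
        rw [h]
        simp [lv]

theorem cix_inv (n : ℕ) (hn : 1 ≤ n) : Qn.val (invNat n) = 1 / n := by
  unfold invNat Qn.val
  have h : ((BN.ofNat n - ⟨1⟩ : BN).val : ℝ) + 1 = n := by
    have h1 : (BN.ofNat n - ⟨1⟩ : BN).val = n - 1 := by simp
    rw [h1, Nat.cast_sub hn]
    simp
  simp only [h]
  simp

theorem cix_gq (G d : ℕ) (hG : 1 ≤ G) : Qn.val (gq G d) = 1 / (G : ℝ) * ((d : ℝ) - G) := by
  unfold gq
  rw [Qn.val_mul, cix_inv G hG, Qn.val_sub]
  simp [qNat]

theorem dig_lt {B j i e d : ℕ} (hB : 0 < B) (hi : i < j) :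
    (e + d * B ^ j) / B ^ i % B = e / B ^ i % B := by
  obtain ⟨t, rfl⟩ : ∃ t, j = i + (t + 1) := ⟨j - i - 1, by omega⟩
  have h1 : e + d * B ^ (i + (t + 1)) = e + B ^ i * (d * B ^ t * B) := by ring
  rw [h1, Nat.add_mul_div_left _ _ (pow_pos hB i), Nat.add_mul_mod_self_right]

theorem dig_eq {B j e d : ℕ} (hB : 0 < B) (he : e < B ^ j) (hd : d < B) :
    (e + d * B ^ j) / B ^ j % B = d := by
  rw [Nat.add_mul_div_right _ _ (pow_pos hB j), Nat.div_eq_of_lt he, Nat.zero_add,
    Nat.mod_eq_of_lt hd]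

theorem dig_bd {B j e d : ℕ} (he : e < B ^ j) (hd : d < B) : e + d * B ^ j < B ^ (j + 1) := by
  have h1 : (d + 1) * B ^ j ≤ B * B ^ j := Nat.mul_le_mul_right _ hd
  have h2 : B ^ (j + 1) = B * B ^ j := by ring
  have h3 : (d + 1) * B ^ j = d * B ^ j + B ^ j := by ring
  omega

theorem cix_ex (G : ℕ) (hG : 1 ≤ G) (y : ℝ) (hy : |y| ≤ 1) :
    ∃ d < 2 * G + 1, |y - 1 / (G : ℝ) * ((d : ℝ) - G)| ≤ 1 / (2 * G) := by
  have hG' : (0 : ℝ) < G := by exact_mod_cast hG
  obtain ⟨hy1, hy2⟩ := abs_le.1 hy
  have hp : 0 ≤ (y + 1) * G := mul_nonneg (by linarith) hG'.le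
  refine ⟨⌊(y + 1) * G + 1 / 2⌋₊, ?_, ?_⟩
  · rw [Nat.floor_lt (by linarith)]
    push_cast
    have : (y + 1) * G ≤ 2 * G := mul_le_mul_of_nonneg_right (by linarith) hG'.le
    linarith
  · have h1 := Nat.floor_le (show 0 ≤ (y + 1) * (G : ℝ) + 1 / 2 by linarith)
    have h2 := Nat.lt_floor_add_one ((y + 1) * (G : ℝ) + 1 / 2)
    set d := ⌊(y + 1) * (G : ℝ) + 1 / 2⌋₊ with hd
    have h3 : y - 1 / (G : ℝ) * ((d : ℝ) - G) = ((y + 1) * G - d) * (1 / G) := by
      field_simp
      ring
    rw [h3, abs_mul, abs_of_pos (show (0 : ℝ) < 1 / G by positivity)]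
    have h4 : (1 : ℝ) / (2 * G) = 1 / 2 * (1 / G) := by
      field_simp
    rw [h4]
    refine mul_le_mul_of_nonneg_right ?_ (by positivity)
    rw [abs_le]
    constructor <;> linarith

theorem cix_main (n m G : ℕ) (F : Helper92.BW.Frm) (x : List Qn) (hG : 1 ≤ G) (hx : x.length = n)
    (hF : ∀ j < m, (gE F j).length = n) :
    (∀ e, cidx m F G x = some e → e < (2 * G + 1) ^ m ∧
      ∀ j < m, |ip (gv n F j) (lv n x) - ctr G e j| ≤ 1 / (2 * G)) ∧
    (cidx m F G x = none → ∃ j < m, 1 < |ip (gv n F j) (lv n x)|) := by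
  induction m with
  | zero =>
    refine ⟨?_, ?_⟩
    · intro e he
      simp only [cidx, Option.some.injEq] at he
      subst he
      refine ⟨by simp, fun j hj => absurd hj (by omega)⟩
    · intro h
      simp [cidx] at h
  | succ m ih =>
    obtain ⟨ih1, ih2⟩ := ih (fun j hj => hF j (by omega))
    have hlen := hF m (by omega)
    have htest : ∀ d, (Qn.le (Qn.abs (Qn.sub (dot (gE F m) x) (gq G d))) (invNat (2 * G)) = true ↔
        |ip (gv n F m) (lv n x) - Qn.val (gq G d)| ≤ 1 / (2 * G)) := by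
      intro d
      rw [Qn.le_iff, Qn.val_abs, Qn.val_sub, cix_dot _ n x hlen hx, cix_inv _ (by omega)]
      push_cast
      rfl
    refine ⟨?_, ?_⟩
    · intro e he
      rw [cidx, Option.bind_eq_some_iff] at he
      obtain ⟨e0, he0, he1⟩ := he
      rw [Option.map_eq_some_iff] at he1
      obtain ⟨d, hd, rfl⟩ := he1
      obtain ⟨hlt, hj⟩ := ih1 e0 he0
      have hdm := List.mem_of_find?_eq_some hd
      have hdp := List.find?_some hd
      rw [List.mem_range] at hdm
      refine ⟨dig_bd hlt hdm, ?_⟩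
      intro j hjm
      rcases Nat.lt_succ_iff_lt_or_eq.1 hjm with h | h
      · unfold ctr
        rw [dig_lt (by omega) h]
        exact hj j h
      · subst h
        unfold ctr
        rw [dig_eq (by omega) hlt hdm]
        exact (htest d).1 hdp
    · intro h
      rw [cidx] at h
      cases hc : cidx m F G x with
      | none =>
        obtain ⟨j, hj, hj'⟩ := ih2 hc
        exact ⟨j, by omega, hj'⟩
      | some e0 =>
        rw [hc] at h
        simp only [Option.bind_some, Option.map_eq_none_iff] at h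
        rw [List.find?_eq_none] at h
        refine ⟨m, by omega, ?_⟩
        by_contra hcon
        push Not at hcon
        obtain ⟨d, hd, hd'⟩ := cix_ex G hG _ hcon
        have h1 := h d (List.mem_range.2 hd)
        apply h1
        rw [htest d, cix_gq G d hG]
        exact hd'

theorem cix_zero (k G : ℕ) : ezero k G < (2 * G + 1) ^ k ∧
    ∀ j < k, ezero k G / (2 * G + 1) ^ j % (2 * G + 1) = G := by
  induction k with
  | zero => exact ⟨by simp [ezero], fun j hj => absurd hj (by omega)⟩
  | succ k ih =>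
    obtain ⟨ih1, ih2⟩ := ih
    rw [ezero]
    refine ⟨dig_bd ih1 (by omega), ?_⟩
    intro j hj
    rcases Nat.lt_succ_iff_lt_or_eq.1 hj with h | h
    · rw [dig_lt (by omega) h]
      exact ih2 j h
    · subst h
      exact dig_eq (by omega) ih1 (by omega)

theorem cix : CixStmt := by
  refine ⟨fun n m G F x hG hx hF => cix_main n m G F x hG hx hF, fun k G => ?_⟩
  obtain ⟨h1, h2⟩ := cix_zero k G
  refine ⟨h1, fun j hj => ?_⟩
  unfold ctr gq
  rw [h2 j hj, Qn.val_mul, Qn.val_sub, sub_self, mul_zero]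

end Pool.Agent.Helper9.BW
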