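import Pool.Agent.Helper92.BW.GoalsA

/-!
# Polytopes of bounded elimination width, packet SCU: one cutting plane step
-/

namespace Pool.Agent.Helper9.BW

open Pool.Agent.Helper92
open Pool.Agent.Helper92.BW
open Pool.Agent.Helper92.FR (hom InS)

theorem scu : ScuStmt := by
  intro d hd V V' φ hcut hsum0
  obtain ⟨i0, n, hmax, hn, hV'⟩ := hcut
  obtain ⟨D, hDdef⟩ : ∃ D : ℝ, D = (d : ℝ) + 1 := ⟨_, rfl⟩
  have hd1 : (1 : ℝ) ≤ d := by exact_mod_cast hd
  have hD : 2 ≤ D := by linarith
  obtain ⟨μ, hμdef⟩ : ∃ μ : ℝ, μ = 1 / (2 * D ^ 2) := ⟨_, rfl⟩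
  have hD2 : 4 ≤ D ^ 2 := by nlinarith
  have hμ0 : 0 < μ := by rw [hμdef]; positivity
  have hμ1 : μ ≤ 1 / 8 := by
    rw [hμdef]
    apply one_div_le_one_div_of_le <;> linarith
  have hμD : 2 * μ * D ^ 2 = 1 := by
    rw [hμdef]
    field_simp
  have hg0 : 0 ≤ φ i0 := by
    by_contra h
    push Not at h
    have : ∑ i, φ i < 0 := by
      refine Finset.sum_neg (fun i _ => lt_of_le_of_lt (hmax i) h) ⟨i0, Finset.mem_univ _⟩
    linarith
  obtain ⟨w, hw⟩ : ∃ w : Fin (d + 1) → ℝ, w = fun i => (φ i0 - φ i) * (φ i0)⁻¹ := ⟨_, rfl⟩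
  have hw0 : ∀ i, 0 ≤ w i := by
    intro i
    rw [hw]
    exact mul_nonneg (sub_nonneg.2 (hmax i)) (inv_nonneg.2 hg0)
  obtain ⟨u, hu⟩ : ∃ u : Fin (d + 1) → ℝ, u = us φ i0 := ⟨_, rfl⟩
  have hu' : ∀ i, u i = 1 - μ + μ * w i := by
    intro i
    rw [hu, hw, hμdef, hDdef]
    rfl
  have hu1 : ∀ i, 1 - μ ≤ u i := by
    intro i
    rw [hu' i]
    have := mul_nonneg hμ0.le (hw0 i)
    linarith
  have hupos : ∀ i, 0 < u i := fun i => by have := hu1 i; linarith
  have hn' : ∀ i, i ≠ i0 → 1 ≤ n i * u i ∧ n i ≤ 1 / u i + 1 / (16 * D ^ 3) := by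
    intro i hi
    rw [hu, hDdef]
    exact hn i hi
  have hnpos : ∀ i, i ≠ i0 → 0 < n i := by
    intro i hi
    have h1 := (hn' i hi).1
    by_contra h
    push Not at h
    have := mul_nonpos_of_nonpos_of_nonneg h (hupos i).le
    linarith
  have hw00 : w i0 = 0 := by rw [hw]; simp
  have hV0 : ∀ l, V' i0 l = V i0 l := by
    intro l
    rw [hV' i0 l]
    ring
  -- the determinant
  have hdet : (hom V').det = (∏ i ∈ Finset.univ.erase i0, n i) * (hom V).det := by
    set n' : Fin (d + 1) → ℝ := fun i => if i = i0 then 1 else n i with hn'def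
    have h1 : (hom V').det = (Matrix.of fun i j => n' i * hom V i j).det := by
      refine Matrix.det_eq_of_forall_row_eq_smul_add_const (fun i => 1 - n' i) i0 ?_ ?_
      · simp [hn'def]
      · intro i j
        have hk : ∀ j, hom V' i j = n' i * hom V i j + (1 - n' i) * hom V i0 j := by
          intro j
          by_cases hi : i = i0
          · subst hi
            simp only [hn'def, if_pos]
            refine Fin.cases ?_ (fun l => ?_) j
            · simp [hom]
            · simp only [hom, Fin.cons_succ]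
              rw [hV0 l]
              ring
          · simp only [hn'def, if_neg hi]
            refine Fin.cases ?_ (fun l => ?_) j
            · simp [hom]
            · simp only [hom, Fin.cons_succ]
              rw [hV' i l]
              ring
        rw [hk j]
        simp only [Matrix.of_apply, hn'def, if_pos]
        ring
    rw [h1, Matrix.det_mul_column]
    congr 1
    rw [← Finset.mul_prod_erase _ _ (Finset.mem_univ i0)]
    have h2 : ∏ i ∈ Finset.univ.erase i0, n' i = ∏ i ∈ Finset.univ.erase i0, n i := by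
      refine Finset.prod_congr rfl fun i hi => ?_
      simp only [hn'def, if_neg (Finset.ne_of_mem_erase hi)]
    rw [h2]
    simp [hn'def]
  have hprodpos : 0 < ∏ i ∈ Finset.univ.erase i0, n i :=
    Finset.prod_pos fun i hi => hnpos i (Finset.ne_of_mem_erase hi)
  refine ⟨?_, ?_, ?_⟩
  · -- part 1
    intro b hb0 hb1 hnonneg
    have hbu : ∑ i ∈ Finset.univ.erase i0, b i * u i ≤ 1 := by
      have h1 : ∑ i ∈ Finset.univ.erase i0, b i * u i =
          (1 - μ) * ∑ i ∈ Finset.univ.erase i0, b i +
            μ * ∑ i ∈ Finset.univ.erase i0, b i * w i := by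
        rw [Finset.mul_sum, Finset.mul_sum, ← Finset.sum_add_distrib]
        refine Finset.sum_congr rfl fun i _ => ?_
        rw [hu' i]
        ring
      have hbE : b i0 + ∑ i ∈ Finset.univ.erase i0, b i = 1 := by
        rw [Finset.add_sum_erase _ _ (Finset.mem_univ i0), hb1]
      have hbwE : b i0 * w i0 + ∑ i ∈ Finset.univ.erase i0, b i * w i = ∑ i, b i * w i :=
        Finset.add_sum_erase _ (fun i => b i * w i) (Finset.mem_univ i0)
      have hbw : ∑ i, b i * w i ≤ 1 := by
        rcases hg0.eq_or_lt with h0 | h0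
        · have : ∀ i, b i * w i = 0 := by
            intro i
            rw [hw, ← h0]
            simp
          rw [Finset.sum_congr rfl fun i _ => this i]
          simp
        · have h1 : ∑ i, b i * w i = 1 - (∑ i, b i * φ i) * (φ i0)⁻¹ := by
            have h2 : ∀ i, b i * w i = b i * (φ i0 * (φ i0)⁻¹) - (b i * φ i) * (φ i0)⁻¹ := by
              intro i
              rw [hw]
              ring
            rw [Finset.sum_congr rfl fun i _ => h2 i, Finset.sum_sub_distrib, ← Finset.sum_mul,
              ← Finset.sum_mul, hb1, mul_inv_cancel₀ h0.ne', mul_one]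
          have h3 : 0 ≤ (∑ i, b i * φ i) * (φ i0)⁻¹ :=
            mul_nonneg hnonneg (inv_nonneg.2 hg0)
          linarith
      have h2 : ∑ i ∈ Finset.univ.erase i0, b i ≤ 1 := by have := hb0 i0; linarith
      have h3 : ∑ i ∈ Finset.univ.erase i0, b i * w i ≤ 1 := by
        rw [hw00, mul_zero, zero_add] at hbwE
        linarith
      rw [h1]
      have h4 : (1 - μ) * ∑ i ∈ Finset.univ.erase i0, b i ≤ (1 - μ) * 1 :=
        mul_le_mul_of_nonneg_left h2 (by linarith)
      have h5 : μ * ∑ i ∈ Finset.univ.erase i0, b i * w i ≤ μ * 1 :=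
        mul_le_mul_of_nonneg_left h3 hμ0.le
      linarith
    have hbn : ∀ i, i ≠ i0 → b i / n i ≤ b i * u i := by
      intro i hi
      rw [div_le_iff₀ (hnpos i hi), mul_assoc]
      have := mul_le_mul_of_nonneg_left (hn' i hi).1 (hb0 i)
      linarith [mul_comm (n i) (u i), mul_comm (u i) (n i)]
    have hbs : ∑ i ∈ Finset.univ.erase i0, b i / n i ≤ 1 :=
      (Finset.sum_le_sum fun i hi => hbn i (Finset.ne_of_mem_erase hi)).trans hbu
    refine ⟨fun i => if i = i0 then 1 - ∑ j ∈ Finset.univ.erase i0, b j / n j else b i / n i,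
      ?_, ?_, ?_⟩
    · intro i
      by_cases hi : i = i0
      · simp only [if_pos hi]
        linarith
      · simp only [if_neg hi]
        exact div_nonneg (hb0 i) (hnpos i hi).le
    · rw [← Finset.add_sum_erase _ _ (Finset.mem_univ i0)]
      have h1 : ∑ i ∈ Finset.univ.erase i0,
          (if i = i0 then 1 - ∑ j ∈ Finset.univ.erase i0, b j / n j else b i / n i) =
          ∑ i ∈ Finset.univ.erase i0, b i / n i := by
        refine Finset.sum_congr rfl fun i hi => ?_
        rw [if_neg (Finset.ne_of_mem_erase hi)]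
      rw [h1, if_pos rfl]
      ring
    · intro l
      rw [← Finset.add_sum_erase _ _ (Finset.mem_univ i0)]
      beta_reduce
      rw [if_pos rfl, hV0 l]
      have h1 : ∑ i ∈ Finset.univ.erase i0,
          (if i = i0 then 1 - ∑ j ∈ Finset.univ.erase i0, b j / n j else b i / n i) * V' i l =
          ∑ i ∈ Finset.univ.erase i0, (b i / n i * V i0 l + (b i * V i l - b i * V i0 l)) := by
        refine Finset.sum_congr rfl fun i hi => ?_
        have hi' := Finset.ne_of_mem_erase hi
        have hne := (hnpos i hi').ne'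
        rw [if_neg hi', hV' i l]
        field_simp
      rw [h1, Finset.sum_add_distrib, Finset.sum_sub_distrib, ← Finset.sum_mul,
        ← Finset.sum_mul]
      have h2 : ∑ i, b i * V i l = b i0 * V i0 l + ∑ i ∈ Finset.univ.erase i0, b i * V i l :=
        (Finset.add_sum_erase _ (fun i => b i * V i l) (Finset.mem_univ i0)).symm
      rw [h2]
      have hbE : b i0 + ∑ i ∈ Finset.univ.erase i0, b i = 1 := by
        rw [Finset.add_sum_erase _ _ (Finset.mem_univ i0), hb1]
      have h3 : b i0 = 1 - ∑ i ∈ Finset.univ.erase i0, b i := by linarith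
      rw [h3]
      ring
  · -- part 2
    rintro ⟨i1, hi1, hi2⟩
    have hφ0 : 0 < φ i0 := lt_of_lt_of_le hi1 (hmax i1)
    have hws : ∑ i, w i = D - (∑ i, φ i) * (φ i0)⁻¹ := by
      rw [hw, ← Finset.sum_mul, Finset.sum_sub_distrib, Finset.sum_const, Finset.card_univ,
        Fintype.card_fin, nsmul_eq_mul, hDdef]
      push_cast
      have h1 : (((d : ℝ) + 1) * φ i0 - ∑ i, φ i) * (φ i0)⁻¹ =
          ((d : ℝ) + 1) * (φ i0 * (φ i0)⁻¹) - (∑ i, φ i) * (φ i0)⁻¹ := by ring
      rw [h1, mul_inv_cancel₀ hφ0.ne', mul_one]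
    obtain ⟨W, hWdef⟩ : ∃ W : ℝ, W = ∑ i ∈ Finset.univ.erase i0, w i := ⟨_, rfl⟩
    have hwE : W = D - (∑ i, φ i) * (φ i0)⁻¹ := by
      have := Finset.add_sum_erase Finset.univ w (Finset.mem_univ i0)
      rw [hw00, zero_add] at this
      rw [hWdef, this, hws]
    have hWD : W ≤ D := by
      rw [hwE]
      have : 0 ≤ (∑ i, φ i) * (φ i0)⁻¹ := mul_nonneg hsum0 (inv_nonneg.2 hg0)
      linarith
    have hWD' : D - 1 / 4 ≤ W := by
      rw [hwE]
      have h1 : (∑ i, φ i) * (φ i0)⁻¹ ≤ (φ i0 / 4) * (φ i0)⁻¹ := by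
        refine mul_le_mul_of_nonneg_right ?_ (inv_nonneg.2 hg0)
        have := hmax i1
        linarith
      have h2 : (φ i0 / 4) * (φ i0)⁻¹ = 1 / 4 := by
        field_simp
      linarith
    have hw2 : ∑ i ∈ Finset.univ.erase i0, w i ^ 2 ≤ W ^ 2 := by
      have h1 : ∀ i ∈ Finset.univ.erase i0, w i ^ 2 ≤ w i * W := by
        intro i hi
        have h2 : w i ≤ W := by
          rw [hWdef]
          exact Finset.single_le_sum (fun j _ => hw0 j) hi
        rw [sq]
        exact mul_le_mul_of_nonneg_left h2 (hw0 i)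
      refine (Finset.sum_le_sum h1).trans ?_
      rw [← Finset.sum_mul, ← hWdef, sq]
    have hcard : ((Finset.univ.erase i0).card : ℝ) = D - 1 := by
      rw [Finset.card_erase_of_mem (Finset.mem_univ i0), Finset.card_univ, Fintype.card_fin, hDdef]
      simp
    have hfac : ∀ i ∈ Finset.univ.erase i0, n i ≤ Real.exp
        (-(μ * (w i - 1)) + (μ * (w i - 1)) ^ 2 / (1 - μ) + u i / (16 * D ^ 3)) := by
      intro i hi
      have hi' := Finset.ne_of_mem_erase hi
      have hui := hupos i
      have hQ : 0 < 16 * D ^ 3 := by positivity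
      have h1 : n i ≤ 1 / u i * (1 + u i / (16 * D ^ 3)) := by
        have := (hn' i hi').2
        have h2 : 1 / u i * (1 + u i / (16 * D ^ 3)) = 1 / u i + 1 / (16 * D ^ 3) := by
          field_simp
        rw [h2]
        exact this
      have h2 : 1 / u i ≤ Real.exp (1 / u i - 1) := by
        have := Real.add_one_le_exp (1 / u i - 1)
        linarith
      have h3 : 1 + u i / (16 * D ^ 3) ≤ Real.exp (u i / (16 * D ^ 3)) := by
        have := Real.add_one_le_exp (u i / (16 * D ^ 3))
        linarith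
      have h4 : n i ≤ Real.exp (1 / u i - 1) * Real.exp (u i / (16 * D ^ 3)) :=
        h1.trans (mul_le_mul h2 h3 (by positivity) (Real.exp_pos _).le)
      rw [← Real.exp_add] at h4
      refine h4.trans (Real.exp_le_exp.2 ?_)
      have h5 : 1 / u i - 1 = -(μ * (w i - 1)) + (μ * (w i - 1)) ^ 2 / u i := by
        have h6 : μ * (w i - 1) = u i - 1 := by rw [hu' i]; ring
        rw [h6]
        field_simp
        ring
      have h6 : (μ * (w i - 1)) ^ 2 / u i ≤ (μ * (w i - 1)) ^ 2 / (1 - μ) :=
        div_le_div_of_nonneg_left (sq_nonneg _) (by linarith) (hu1 i)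
      rw [h5]
      linarith
    have hprod : ∏ i ∈ Finset.univ.erase i0, n i ≤
        Real.exp (-(1 / (16 * D ^ 2))) := by
      refine (Finset.prod_le_prod (fun i hi => (hnpos i (Finset.ne_of_mem_erase hi)).le)
        hfac).trans ?_
      rw [← Real.exp_sum]
      refine Real.exp_le_exp.2 ?_
      rw [Finset.sum_add_distrib, Finset.sum_add_distrib, ← Finset.sum_div, ← Finset.sum_div]
      have s1 : ∑ i ∈ Finset.univ.erase i0, -(μ * (w i - 1)) ≤ -(3 / 4 * μ) := by
        have : ∀ i, -(μ * (w i - 1)) = -μ * w i + μ := fun i => by ring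
        rw [Finset.sum_congr rfl fun i _ => this i, Finset.sum_add_distrib, ← Finset.mul_sum,
          ← hWdef, Finset.sum_const, nsmul_eq_mul, hcard]
        nlinarith
      have s2 : ∑ i ∈ Finset.univ.erase i0, (μ * (w i - 1)) ^ 2 ≤
          μ ^ 2 * (D ^ 2 - D - 1) := by
        have : ∀ i, (μ * (w i - 1)) ^ 2 = μ ^ 2 * w i ^ 2 + (-2 * μ ^ 2 * w i + μ ^ 2) :=
          fun i => by ring
        rw [Finset.sum_congr rfl fun i _ => this i, Finset.sum_add_distrib,
          Finset.sum_add_distrib, ← Finset.mul_sum, ← Finset.mul_sum, ← hWdef,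
          Finset.sum_const, nsmul_eq_mul, hcard]
        have h8 := mul_le_mul_of_nonneg_left hw2 (sq_nonneg μ)
        have h9 : W ^ 2 - 2 * W ≤ D ^ 2 - 2 * D := by nlinarith
        have h10 := mul_le_mul_of_nonneg_left h9 (sq_nonneg μ)
        nlinarith
      have s3 : ∑ i ∈ Finset.univ.erase i0, u i ≤ D := by
        rw [Finset.sum_congr rfl fun i _ => hu' i, Finset.sum_add_distrib, ← Finset.mul_sum,
          ← hWdef, Finset.sum_const, nsmul_eq_mul, hcard]
        nlinarith
      have s4 : (∑ i ∈ Finset.univ.erase i0, (μ * (w i - 1)) ^ 2) / (1 - μ) ≤ μ / 2 := by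
        rw [div_le_iff₀ (by linarith)]
        refine s2.trans ?_
        have h7 : μ ^ 2 * (D ^ 2 - D - 1) = μ * (1 / 2) - μ ^ 2 * (D + 1) := by
          have : μ ^ 2 * D ^ 2 = μ * (1 / 2) := by nlinarith
          nlinarith
        rw [h7]
        nlinarith
      have s5 : (∑ i ∈ Finset.univ.erase i0, u i) / (16 * D ^ 3) ≤ 1 / (16 * D ^ 2) := by
        rw [div_le_div_iff₀ (by positivity) (by positivity)]
        have : (∑ i ∈ Finset.univ.erase i0, u i) * (16 * D ^ 2) ≤ D * (16 * D ^ 2) :=
          mul_le_mul_of_nonneg_right s3 (by positivity)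
        nlinarith
      have s6 : μ / 4 = 1 / (16 * D ^ 2) + 1 / (16 * D ^ 2) := by
        rw [hμdef]
        field_simp
        ring
      linarith
    rw [hdet, abs_mul, abs_of_nonneg hprodpos.le, ← hDdef]
    exact mul_le_mul_of_nonneg_right hprod (abs_nonneg _)
  · -- part 3
    intro h
    rw [hdet]
    exact mul_ne_zero hprodpos.ne' h

end Pool.Agent.Helper9.BW
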